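import Pool.Agent.Helper73.HV.Stmts

/-!
# Half volume: from the body of buoyancy to the equation `supp K = c * ∫_K |⟨u,x⟩|`
-/

open MeasureTheory Set Metric Real
open scoped RealInnerProductSpace ENNReal
open Pool.Agent.Helper16.Buoy (E cap centroid buoyancyBody Homothetic)

namespace Pool.Agent.Helper51.HV

open Pool.Agent.Helper73.HV

variable {n : ℕ} {K : Set (E n)}

/-- Hyperplanes are null sets. -/
theorem hyper_null {u : E n} (hu : u ≠ 0) (t : ℝ) : volume {x : E n | inner ℝ u x = t} = 0 := by
  classical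
  set p : E n := (t / ‖u‖ ^ 2) • u with hp
  have hnn : ‖u‖ ^ 2 ≠ 0 := by positivity
  have hpt : inner ℝ u p = t := by
    rw [hp, inner_smul_right, real_inner_self_eq_norm_sq]
    field_simp
  have heq : {x : E n | inner ℝ u x = t} = (fun x => x - p) ⁻¹' ((ℝ ∙ u)ᗮ : Submodule ℝ (E n)) := by
    ext x
    simp only [mem_ofPred_eq, mem_preimage, SetLike.mem_coe, Submodule.mem_orthogonal_singleton_iff_inner_right,
      inner_sub_right, hpt, sub_eq_zero]
  rw [heq, (measurePreserving_sub_right (volume : Measure (E n)) p).measure_preimage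
    ((Submodule.closed_of_finiteDimensional _).measurableSet.nullMeasurableSet)]
  apply Measure.addHaar_submodule
  intro h
  have : u ∈ (ℝ ∙ u)ᗮ := by rw [h]; trivial
  rw [Submodule.mem_orthogonal_singleton_iff_inner_right, real_inner_self_eq_norm_sq] at this
  exact hnn this

theorem cap_meas (hK : IsCompact K) (u : E n) (t : ℝ) : MeasurableSet (cap K u t) := by
  unfold Pool.Agent.Helper16.Buoy.cap
  exact hK.measurableSet.inter (measurableSet_le measurable_const (by fun_prop))

/-- The complementary cap. -/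
theorem cap_compl_ae {u : E n} (hu : u ≠ 0) (t : ℝ) :
    (cap K (-u) (-t) : Set (E n)) =ᵐ[volume] (K \ cap K u t : Set (E n)) := by
  have h0 : ∀ᵐ x : E n, inner ℝ u x ≠ t := by
    have := hyper_null hu t
    rw [ae_iff]
    simpa using this
  filter_upwards [h0] with x hx
  apply propext
  show x ∈ K ∩ {x | -t ≤ inner ℝ (-u) x} ↔ x ∈ K \ (K ∩ {x | t ≤ inner ℝ u x})
  simp only [mem_inter_iff, mem_ofPred_eq, mem_sdiff, inner_neg_left, neg_le_neg_iff, not_and, not_le]
  constructor
  · rintro ⟨h1, h2⟩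
    exact ⟨h1, fun _ => lt_of_le_of_ne h2 hx⟩
  · rintro ⟨h1, h2⟩
    exact ⟨h1, (h2 h1).le⟩

theorem cap_subset (u : E n) (t : ℝ) : cap K u t ⊆ K := inter_subset_left

theorem vol_compl (hK : IsCompact K) {u : E n} (hu : u ≠ 0) (t : ℝ) :
    volume (cap K u t) + volume (cap K (-u) (-t)) = volume K := by
  have h := measure_inter_add_sdiff (μ := (volume : Measure (E n))) K (cap_meas hK u t)
  rw [inter_eq_self_of_subset_right (cap_subset u t)] at h
  rw [measure_congr (cap_compl_ae hu t), h]

theorem int_on (hK : IsCompact K) {F : Type*} [NormedAddCommGroup F] {f : E n → F}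
    (hf : Continuous f) : IntegrableOn f K := hf.continuousOn.integrableOn_compact hK

theorem int_compl (hK : IsCompact K) {u : E n} (hu : u ≠ 0) (t : ℝ) :
    (∫ x in cap K u t, x) + ∫ x in cap K (-u) (-t), x = ∫ x in K, x := by
  have h := integral_inter_add_sdiff (f := fun x : E n => x) (cap_meas hK u t)
    (int_on hK continuous_id)
  rw [inter_eq_self_of_subset_right (cap_subset u t)] at h
  rw [setIntegral_congr_set (cap_compl_ae hu t), h]

/-- The reflection in `q`. -/
theorem refl_mp (q : E n) : MeasurePreserving (fun x : E n => (2 : ℝ) • q - x) volume volume :=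
  Measure.measurePreserving_sub_left volume _

theorem refl_emb (q : E n) : MeasurableEmbedding (fun x : E n => (2 : ℝ) • q - x) :=
  (MeasurableEquiv.subLeft ((2 : ℝ) • q)).measurableEmbedding

theorem refl_pre {q : E n} (hs : ∀ x ∈ K, (2 : ℝ) • q - x ∈ K) :
    (fun x : E n => (2 : ℝ) • q - x) ⁻¹' K = K := by
  ext x
  constructor
  · intro hx
    have := hs _ hx
    simpa using this
  · intro hx
    exact hs x hx

theorem refl_int {q : E n} (hs : ∀ x ∈ K, (2 : ℝ) • q - x ∈ K) {F : Type*} [NormedAddCommGroup F]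
    [NormedSpace ℝ F] (f : E n → F) :
    ∫ x in K, f ((2 : ℝ) • q - x) = ∫ x in K, f x := by
  have := (refl_mp q).setIntegral_preimage_emb (refl_emb q) f K
  rwa [refl_pre hs] at this

/-- The positive part integral dominates the integral over any part of `K`. -/
theorem int_cap_le (hK : IsCompact K) (u g : E n) {C : Set (E n)} (hC : C ⊆ K) (hCm : MeasurableSet C) :
    ∫ x in C, inner ℝ u (x - g) ≤ ∫ x in K, max (inner ℝ u (x - g)) 0 := by
  have h1 : ∫ x in C, inner ℝ u (x - g) ≤ ∫ x in C, max (inner ℝ u (x - g)) 0 := by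
    apply setIntegral_mono_on
    · exact (int_on hK (f := fun x => inner ℝ u (x - g)) (by fun_prop)).mono_set hC
    · exact (int_on hK (f := fun x => max (inner ℝ u (x - g)) 0) (by fun_prop)).mono_set hC
    · exact hCm
    · intro x _
      exact le_max_left _ _
  refine h1.trans ?_
  apply setIntegral_mono_set
  · exact int_on hK (f := fun x => max (inner ℝ u (x - g)) 0) (by fun_prop)
  · exact Filter.Eventually.of_forall fun x => le_max_right _ _
  · exact Filter.Eventually.of_forall hC

theorem int_cap_eq (hK : IsCompact K) (u g : E n) {C : Set (E n)}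
    (hC : ∀ x, x ∈ C ↔ x ∈ K ∧ 0 ≤ inner ℝ u (x - g)) :
    ∫ x in C, inner ℝ u (x - g) = ∫ x in K, max (inner ℝ u (x - g)) 0 := by
  have hCK : C = K ∩ {x | 0 ≤ inner ℝ u (x - g)} := by
    ext x; exact hC x
  have hm : MeasurableSet {x : E n | 0 ≤ inner ℝ u (x - g)} :=
    measurableSet_le measurable_const (by fun_prop)
  rw [← integral_inter_add_sdiff (f := fun x => max (inner ℝ u (x - g)) 0) hm
    (int_on hK (f := fun x => max (inner ℝ u (x - g)) 0) (by fun_prop)), ← hCK]
  have h2 : ∫ x in K \ {x | 0 ≤ inner ℝ u (x - g)}, max (inner ℝ u (x - g)) 0 = 0 := by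
    rw [setIntegral_congr_fun (g := fun _ => 0) (hK.measurableSet.diff hm)]
    · simp
    · rintro x ⟨_, hx⟩
      simp only [mem_ofPred_eq, not_le] at hx
      exact max_eq_right hx.le
  rw [h2, add_zero]
  apply setIntegral_congr_fun
  · rw [hCK]; exact hK.measurableSet.inter hm
  · intro x hx
    exact (max_eq_left ((hC x).1 hx).2).symm

/-- The positive part carries half of the absolute moment. -/
theorem int_pos_half (hK : IsCompact K) {g : E n} (hs : ∀ x ∈ K, (2 : ℝ) • g - x ∈ K) (u : E n) :
    2 * ∫ x in K, max (inner ℝ u (x - g)) 0 = ∫ x in K, |inner ℝ u (x - g)| := by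
  have h := refl_int hs (fun x => max (inner ℝ u (x - g)) 0)
  have h1 : ∀ x : E n, (inner ℝ u ((2 : ℝ) • g - x - g) : ℝ) = - inner ℝ u (x - g) := by
    intro x
    rw [← inner_neg_right]
    congr 1
    rw [two_smul]; abel
  simp only [h1] at h
  rw [two_mul]
  nth_rewrite 1 [← h]
  rw [← integral_add]
  · apply integral_congr_ae
    refine Filter.Eventually.of_forall fun x => ?_
    show max (-(inner ℝ u (x - g) : ℝ)) 0 + max (inner ℝ u (x - g)) 0 = |inner ℝ u (x - g)|
    rcases le_total (inner ℝ u (x - g) : ℝ) 0 with h3 | h3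
    · rw [max_eq_left (by linarith), max_eq_right h3, abs_of_nonpos h3, add_zero]
    · rw [max_eq_right (by linarith), max_eq_left h3, abs_of_nonneg h3, zero_add]
  · exact int_on hK (f := fun x => max (-(inner ℝ u (x - g) : ℝ)) 0) (by fun_prop)
  · exact int_on hK (f := fun x => max (inner ℝ u (x - g)) 0) (by fun_prop)

theorem int_inner_cent (hK : IsCompact K) (u g : E n) {C : Set (E n)} (hC : C ⊆ K) {d : ℝ}
    (hd : 0 < d) (hv : volume C = ENNReal.ofReal d) :
    ∫ x in C, inner ℝ u (x - g) = d * inner ℝ u (centroid C - g) := by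
  have hi : IntegrableOn (fun x : E n => x - g) C :=
    (int_on hK (f := fun x : E n => x - g) (by fun_prop)).mono_set hC
  have hi1 : IntegrableOn (fun x : E n => x) C :=
    (int_on hK (f := fun x : E n => x) (by fun_prop)).mono_set hC
  have hi2 : IntegrableOn (fun _ : E n => g) C :=
    (int_on hK (f := fun _ : E n => g) (by fun_prop)).mono_set hC
  rw [integral_inner hi, integral_sub hi1 hi2, setIntegral_const]
  have hr : volume.real C = d := by
    rw [measureReal_def, hv, ENNReal.toReal_ofReal hd.le]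
  have hc : centroid C = d⁻¹ • ∫ x in C, x := by
    unfold Pool.Agent.Helper16.Buoy.centroid
    rw [hv, ENNReal.toReal_ofReal hd.le]
  rw [hr, hc, ← inner_smul_right, smul_sub, smul_smul, mul_inv_cancel₀ hd.ne', one_smul]

theorem refl_cap {g : E n} (hs : ∀ x ∈ K, (2 : ℝ) • g - x ∈ K) (u : E n) :
    (fun x : E n => (2 : ℝ) • g - x) ⁻¹' (cap K u (inner ℝ u g)) = cap K (-u) (-inner ℝ u g) := by
  ext x
  have hKx : (2 : ℝ) • g - x ∈ K ↔ x ∈ K := by
    constructor
    · intro h
      simpa using hs _ h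
    · exact hs x
  show ((2 : ℝ) • g - x ∈ K ∧ inner ℝ u g ≤ inner ℝ u ((2 : ℝ) • g - x)) ↔
    (x ∈ K ∧ -inner ℝ u g ≤ inner ℝ (-u) x)
  rw [hKx, inner_sub_right, inner_smul_right, inner_neg_left]
  constructor
  · rintro ⟨h1, h2⟩
    exact ⟨h1, by linarith⟩
  · rintro ⟨h1, h2⟩
    exact ⟨h1, by linarith⟩

theorem vol_half (hK : IsCompact K) {g : E n} (hs : ∀ x ∈ K, (2 : ℝ) • g - x ∈ K) {u : E n}
    (hu : u ≠ 0) {d : ℝ} (hd : 2 * ENNReal.ofReal d = volume K) :
    volume (cap K u (inner ℝ u g)) = ENNReal.ofReal d := by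
  have h1 := vol_compl hK hu (inner ℝ u g)
  have h2 := (refl_mp g).measure_preimage (cap_meas hK u (inner ℝ u g)).nullMeasurableSet
  rw [refl_cap hs] at h2
  rw [h2, ← two_mul, ← hd] at h1
  exact (ENNReal.mul_right_inj (by norm_num) (by norm_num)).1 h1

theorem reduction : S_reduction := by
  intro n hn K hconv hcomp hint d hd hom
  obtain ⟨p, l, hl, hB⟩ := hom
  have hne : K.Nonempty := hint.mono interior_subset
  have hVpos : 0 < volume K :=
    (isOpen_interior.measure_pos volume hint).trans_le (measure_mono interior_subset)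
  have hdpos : 0 < d := by
    by_contra h
    rw [ENNReal.ofReal_of_nonpos (not_lt.1 h), mul_zero] at hd
    exact hVpos.ne hd
  have hV : (volume K).toReal = 2 * d := by
    rw [← hd, ENNReal.toReal_mul, ENNReal.toReal_ofReal hdpos.le]
    simp
  set g : E n := centroid K with hg
  have hg2 : g = (2 * d)⁻¹ • ∫ x in K, x := by
    rw [hg]
    unfold Pool.Agent.Helper16.Buoy.centroid
    rw [hV]
  set S : Set (E n) := {c | ∃ u : E n, ‖u‖ = 1 ∧ ∃ t : ℝ,
    volume (cap K u t) = ENNReal.ofReal d ∧ c = centroid (cap K u t)} with hS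
  have hBS : buoyancyBody K d = convexHull ℝ S := rfl
  have hSsymm : ∀ c ∈ S, (2 : ℝ) • g - c ∈ S := by
    rintro c ⟨u, hu, t, hv, rfl⟩
    have hu0 : u ≠ 0 := by
      rintro rfl
      simp at hu
    have hv' : volume (cap K (-u) (-t)) = ENNReal.ofReal d := by
      have h1 := vol_compl hcomp hu0 t
      rw [hv, ← hd, two_mul] at h1
      exact (ENNReal.add_right_inj ENNReal.ofReal_ne_top).1 h1
    refine ⟨-u, by simp [hu], -t, hv', ?_⟩
    have h2 := int_compl hcomp hu0 t
    unfold Pool.Agent.Helper16.Buoy.centroid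
    rw [hv, hv', ENNReal.toReal_ofReal hdpos.le, hg2, ← h2, smul_smul]
    have h3 : (2 : ℝ) * (2 * d)⁻¹ = d⁻¹ := by field_simp
    rw [h3]
    module
  have hBsymm : ∀ y ∈ buoyancyBody K d, (2 : ℝ) • g - y ∈ buoyancyBody K d := by
    rw [hBS]
    have : convexHull ℝ S ⊆ {y | (2 : ℝ) • g - y ∈ convexHull ℝ S} := by
      refine convexHull_min (fun c hc => subset_convexHull _ _ (hSsymm c hc)) ?_
      intro y1 h1 y2 h2 a b ha hb hab
      have h3 := (convex_convexHull ℝ S) h1 h2 ha hb hab
      show (2 : ℝ) • g - (a • y1 + b • y2) ∈ convexHull ℝ S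
      convert h3 using 1
      obtain rfl : b = 1 - a := by linarith
      module
    exact fun y hy => this hy
  set q : E n := p + l⁻¹ • (g - p) with hq
  have hlq : l • q = l • p + (g - p) := by
    rw [hq, smul_add, smul_smul, mul_inv_cancel₀ hl.ne', one_smul]
  have hKq : ∀ x ∈ K, (2 : ℝ) • q - x ∈ K := by
    intro x hx
    have h1 : p + l • (x - p) ∈ buoyancyBody K d := by
      rw [← hB]; exact ⟨x, hx, rfl⟩
    have h2 := hBsymm _ h1
    rw [← hB] at h2
    obtain ⟨x', hx', he⟩ := h2
    have he' : p + l • (x' - p) = (2 : ℝ) • g - (p + l • (x - p)) := he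
    have h3 : l • x' = l • ((2 : ℝ) • q - x) := by
      have h4 : l • x' = (p + l • (x' - p)) - p + l • p := by module
      have h5 : l • ((2 : ℝ) • q - x) = (2 : ℝ) • (l • q) - l • x := by module
      rw [h4, he', h5, hlq]
      module
    have h6 : x' = (2 : ℝ) • q - x := smul_right_injective _ hl.ne' h3
    rwa [← h6]
  have hgq : g = q := by
    have h1 := refl_int hKq (fun x => x)
    have h2 : ∫ x in K, ((2 : ℝ) • q - x) = (2 * d) • ((2 : ℝ) • q) - ∫ x in K, x := by
      rw [integral_sub (int_on hcomp (by fun_prop)) (int_on hcomp (by fun_prop)), setIntegral_const,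
        measureReal_def, hV]
    simp only [h2] at h1
    have h3 : (2 : ℝ) • ∫ x in K, x = (2 : ℝ) • ((2 * d) • q) := by
      rw [two_smul ℝ (∫ x in K, x)]
      nth_rewrite 1 [← h1]
      rw [sub_add_cancel, smul_comm]
    have h4 : ∫ x in K, x = (2 * d) • q := smul_right_injective _ (two_ne_zero) h3
    rw [hg2, h4, smul_smul, inv_mul_cancel₀ (by positivity), one_smul]
  rw [← hgq] at hlq
  have hKg : ∀ x ∈ K, (2 : ℝ) • g - x ∈ K := by
    rw [hgq]; exact hKq
  have hmap : ∀ x, p + l • (x - p) = g + l • (x - g) := by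
    intro x
    rw [smul_sub l x g, hlq]
    module
  have hup : ∀ u, ∀ y ∈ buoyancyBody K d,
      d * inner ℝ u (y - g) ≤ ∫ x in K, max (inner ℝ u (x - g)) 0 := by
    intro u
    have : convexHull ℝ S ⊆ {y | d * inner ℝ u (y - g) ≤ ∫ x in K, max (inner ℝ u (x - g)) 0} := by
      refine convexHull_min ?_ ?_
      · rintro c ⟨u', hu', t, hv, rfl⟩
        show d * inner ℝ u (centroid (cap K u' t) - g) ≤ _
        rw [← int_inner_cent hcomp u g (cap_subset u' t) hdpos hv]
        exact int_cap_le hcomp u g (cap_subset u' t) (cap_meas hcomp u' t)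
      · intro y1 h1 y2 h2 a b ha hb hab
        have h1' : d * inner ℝ u (y1 - g) ≤ ∫ x in K, max (inner ℝ u (x - g)) 0 := h1
        have h2' : d * inner ℝ u (y2 - g) ≤ ∫ x in K, max (inner ℝ u (x - g)) 0 := h2
        show d * inner ℝ u (a • y1 + b • y2 - g) ≤ ∫ x in K, max (inner ℝ u (x - g)) 0
        have h3 : d * inner ℝ u (a • y1 + b • y2 - g) =
            a * (d * inner ℝ u (y1 - g)) + b * (d * inner ℝ u (y2 - g)) := by
          simp only [inner_sub_right, inner_add_right, inner_smul_right]
          obtain rfl : b = 1 - a := by linarith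
          ring
        rw [h3]
        calc a * (d * inner ℝ u (y1 - g)) + b * (d * inner ℝ u (y2 - g))
            ≤ a * (∫ x in K, max (inner ℝ u (x - g)) 0) + b * (∫ x in K, max (inner ℝ u (x - g)) 0) :=
              add_le_add (mul_le_mul_of_nonneg_left h1' ha) (mul_le_mul_of_nonneg_left h2' hb)
          _ = _ := by rw [← add_mul, hab, one_mul]
    exact fun y hy => this hy
  have hatt : ∀ u : E n, u ≠ 0 → ∃ c ∈ buoyancyBody K d,
      d * inner ℝ u (c - g) = ∫ x in K, max (inner ℝ u (x - g)) 0 := by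
    intro u hu
    have hnu : 0 < ‖u‖ := norm_pos_iff.2 hu
    set u' : E n := ‖u‖⁻¹ • u with hu'
    have hu1 : ‖u'‖ = 1 := by
      rw [hu', norm_smul, norm_inv, norm_norm, inv_mul_cancel₀ hnu.ne']
    have hu0 : u' ≠ 0 := by
      intro h
      rw [h] at hu1
      simp at hu1
    have hv := vol_half hcomp hKg hu0 hd
    refine ⟨centroid (cap K u' (inner ℝ u' g)), ?_, ?_⟩
    · rw [hBS]
      exact subset_convexHull _ _ ⟨u', hu1, _, hv, rfl⟩
    · rw [← int_inner_cent hcomp u g (cap_subset u' _) hdpos hv]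
      apply int_cap_eq hcomp
      intro x
      show (x ∈ K ∧ inner ℝ u' g ≤ inner ℝ u' x) ↔ _
      rw [hu', inner_smul_left, inner_smul_left, inner_sub_right]
      simp only [conj_trivial]
      rw [mul_le_mul_iff_right₀ (inv_pos.2 hnu), sub_nonneg]
  refine ⟨g, (2 * d * l)⁻¹, by positivity, ⟨?_, ?_, ?_, ?_⟩, ?_⟩
  · have := hconv.translate (-g)
    simpa [sub_eq_neg_add] using this
  · exact hcomp.image (by fun_prop)
  · have : interior ((fun x => x - g) '' K) = (fun x => x - g) '' interior K := by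
      have := (Homeomorph.subRight g).image_interior K
      exact this.symm
    rw [this]
    exact hint.image _
  · rintro _ ⟨x, hx, rfl⟩
    refine ⟨(2 : ℝ) • g - x, hKg x hx, ?_⟩
    show (2 : ℝ) • g - x - g = -(x - g)
    module
  · intro u
    have himg : ∫ x in (fun x => x - g) '' K, |inner ℝ u x| = ∫ x in K, |inner ℝ u (x - g)| := by
      have h1 : MeasurePreserving (fun x : E n => x - g) volume volume :=
        measurePreserving_sub_right volume g
      exact h1.setIntegral_image_emb (MeasurableEquiv.subRight g).measurableEmbedding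
        (fun x => |inner ℝ u x|) K
    rw [himg, ← int_pos_half hcomp hKg u]
    have hval : (2 * d * l)⁻¹ * (2 * ∫ x in K, max (inner ℝ u (x - g)) 0) =
        (d * l)⁻¹ * ∫ x in K, max (inner ℝ u (x - g)) 0 := by
      field_simp
    rw [hval]
    unfold supp
    apply IsGreatest.csSup_eq
    constructor
    · by_cases hu : u = 0
      · obtain ⟨x, hx⟩ := hne
        refine ⟨x - g, ⟨x, hx, rfl⟩, ?_⟩
        rw [hu]
        simp
      · obtain ⟨c, hc, hcu⟩ := hatt u hu
        rw [← hB] at hc
        obtain ⟨x, hx, rfl⟩ := hc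
        refine ⟨x - g, ⟨x, hx, rfl⟩, ?_⟩
        show inner ℝ u (x - g) = _
        rw [← hcu]
        show inner ℝ u (x - g) = (d * l)⁻¹ * (d * inner ℝ u (p + l • (x - p) - g))
        rw [hmap x, add_sub_cancel_left, inner_smul_right]
        field_simp
    · rintro _ ⟨_, ⟨x, hx, rfl⟩, rfl⟩
      show inner ℝ u (x - g) ≤ _
      have h1 : p + l • (x - p) ∈ buoyancyBody K d := by
        rw [← hB]; exact ⟨x, hx, rfl⟩
      have h2 := hup u _ h1
      rw [hmap x, add_sub_cancel_left, inner_smul_right] at h2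
      rw [inv_mul_eq_div, le_div_iff₀ (by positivity)]
      linarith

end Pool.Agent.Helper51.HV
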